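import Mathlib

set_option autoImplicit false

/-!
# Weak P-points generate a free semigroup under the tensor product

Every set of pairwise non-isomorphic weak P-points (in particular every set of pairwise
Rudin-Keisler incomparable weak P-points) generates a free semigroup up to isomorphism under the
tensor product of ultrafilters.
-/

namespace Pool.Agent.Results.MP_55c7a7_lc.WeakPPointsFree

open Set Filter

/-- The ultrafilter `u` on `ℕ` is nonprincipal. -/
def Nonprincipal (u : Ultrafilter ℕ) : Prop := ∀ n : ℕ, ({n} : Set ℕ) ∉ u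

/-- Rudin-Keisler: `u ≤ v` iff `u = f(v)` for some `f : ℕ → ℕ`. -/
def RK (u v : Ultrafilter ℕ) : Prop := ∃ f : ℕ → ℕ, v.map f = u

/-- Isomorphism: Rudin-Keisler equivalence. -/
def Iso (u v : Ultrafilter ℕ) : Prop := RK u v ∧ RK v u

/-- Weak P-points: nonprincipal and not in the closure (in `βℕ`) of any countable set of
nonprincipal ultrafilters different from `u`. -/
def WeakPPoint (u : Ultrafilter ℕ) : Prop :=
  Nonprincipal u ∧ ∀ S : Set (Ultrafilter ℕ), S.Countable →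
    (∀ v ∈ S, Nonprincipal v ∧ v ≠ u) → u ∉ closure S

/-- The tensor product of two ultrafilters on `ℕ`, as an ultrafilter on `ℕ × ℕ`. -/
def tensorPair (u v : Ultrafilter ℕ) : Ultrafilter (ℕ × ℕ) :=
  u.bind (fun i => v.map (fun j => (i, j)))

/-- The tensor product transferred to `ℕ` by the bijection `e`. -/
def tensor (e : ℕ × ℕ ≃ ℕ) (u v : Ultrafilter ℕ) : Ultrafilter ℕ := (tensorPair u v).map e

/-- The product `a ⊗ (b₁ ⊗ (b₂ ⊗ ⋯))` of the nonempty word `a b₁ b₂ ⋯`. -/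
def word (e : ℕ × ℕ ≃ ℕ) : Ultrafilter ℕ → List (Ultrafilter ℕ) → Ultrafilter ℕ
  | a, [] => a
  | a, b :: l => tensor e a (word e b l)

/-- `A` generates a free semigroup up to isomorphism (products formed with the bijection `e`). -/
def GeneratesFree (e : ℕ × ℕ ≃ ℕ) (A : Set (Ultrafilter ℕ)) : Prop :=
  ∀ a ∈ A, ∀ b ∈ A, ∀ l l' : List (Ultrafilter ℕ), (∀ c ∈ l, c ∈ A) → (∀ c ∈ l', c ∈ A) →
    Iso (word e a l) (word e b l') → a = b ∧ l = l'

/-! ### Fixed points of maps on ultrafilters -/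

/-- two-colouring for regressive functions -/
noncomputable def down (f : ℕ → ℕ) (n : ℕ) : Bool :=
  if _h : f n < n then !(down f (f n)) else false
termination_by n
decreasing_by exact _h

lemma down_spec (f : ℕ → ℕ) (n : ℕ) (h : f n < n) : down f n ≠ down f (f n) := by
  have : down f n = !(down f (f n)) := by
    conv_lhs => rw [down]
    rw [dif_pos h]
  rw [this]
  cases down f (f n) <;> simp

/-- two-colouring for progressive functions below `N` -/
noncomputable def up (f : ℕ → ℕ) (N : ℕ) (n : ℕ) : Bool :=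
  if _h : n < f n ∧ f n ≤ N then !(up f N (f n)) else false
termination_by N - n
decreasing_by omega

lemma up_spec (f : ℕ → ℕ) (N n : ℕ) (h : n < f n) (h2 : f n ≤ N) : up f N n ≠ up f N (f n) := by
  have : up f N n = !(up f N (f n)) := by
    conv_lhs => rw [up]
    rw [dif_pos ⟨h, h2⟩]
  rw [this]
  cases up f N (f n) <;> simp

lemma map_fix (u : Ultrafilter ℕ) (f : ℕ → ℕ) (h : u.map f = u) : {n | f n = n} ∈ u := by
  have key : ∀ c : ℕ → Bool, {n | c n ≠ c (f n)} ∉ u := by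
    intro c hc
    have hpre : ∀ B : Set ℕ, B ∈ u ↔ f ⁻¹' B ∈ u := by
      intro B
      conv_lhs => rw [← h]
      exact Ultrafilter.mem_map
    by_cases h1 : {n | c n = true} ∈ u
    · have h2 := (hpre _).1 h1
      obtain ⟨n, ⟨h3, h4⟩, h5⟩ := Ultrafilter.nonempty_of_mem (inter_mem (inter_mem h1 h2) hc)
      simp only [mem_ofPred_eq, mem_preimage] at h3 h4 h5
      exact h5 (h3.trans h4.symm)
    · have h1' := Ultrafilter.compl_mem_iff_notMem.2 h1
      have h2 := (hpre _).1 h1'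
      obtain ⟨n, ⟨h3, h4⟩, h5⟩ := Ultrafilter.nonempty_of_mem (inter_mem (inter_mem h1' h2) hc)
      simp only [mem_ofPred_eq, mem_preimage, mem_compl_iff, Bool.not_eq_true] at h3 h4 h5
      exact h5 (h3.trans h4.symm)
  have h1 : {n | f n < n} ∉ u := fun hc =>
    key (down f) (mem_of_superset hc fun n hn => down_spec f n hn)
  have h2 : {n | n < f n} ∉ u := by
    intro hc
    classical
    let W : Ultrafilter ℕ := Filter.hyperfilter ℕ
    let c : ℕ → Bool := fun n => decide ({N | up f N n = true} ∈ W)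
    apply key c
    refine mem_of_superset hc fun n hn => ?_
    simp only [mem_ofPred_eq] at hn ⊢
    have hbig : {N | f n ≤ N} ∈ W := by
      have : {N : ℕ | f n ≤ N} ∈ (Filter.cofinite : Filter ℕ) := by
        rw [Filter.mem_cofinite]
        refine (Set.finite_lt_nat (f n)).subset ?_
        intro N hN
        simp only [mem_compl_iff, mem_ofPred_eq, not_le] at hN
        exact hN
      exact Filter.hyperfilter_le_cofinite this
    intro heq
    simp only [c] at heq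
    rw [decide_eq_decide] at heq
    by_cases h3 : {N | up f N n = true} ∈ W
    · have h4 := heq.1 h3
      obtain ⟨N, ⟨h5, h6⟩, h7⟩ := Ultrafilter.nonempty_of_mem (inter_mem (inter_mem h3 h4) hbig)
      simp only [mem_ofPred_eq] at h5 h6 h7
      exact up_spec f N n hn h7 (h5.trans h6.symm)
    · have h4 := fun h => h3 (heq.2 h)
      have h3' := Ultrafilter.compl_mem_iff_notMem.2 h3
      have h4' := Ultrafilter.compl_mem_iff_notMem.2 h4
      obtain ⟨N, ⟨h5, h6⟩, h7⟩ := Ultrafilter.nonempty_of_mem (inter_mem (inter_mem h3' h4') hbig)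
      simp only [mem_ofPred_eq, mem_compl_iff, Bool.not_eq_true] at h5 h6 h7
      exact up_spec f N n hn h7 (h5.trans h6.symm)
  by_contra h3
  have h1' := Ultrafilter.compl_mem_iff_notMem.2 h1
  have h2' := Ultrafilter.compl_mem_iff_notMem.2 h2
  have h3' := Ultrafilter.compl_mem_iff_notMem.2 h3
  obtain ⟨n, ⟨h5, h6⟩, h7⟩ := Ultrafilter.nonempty_of_mem (inter_mem (inter_mem h1' h2') h3')
  simp only [mem_ofPred_eq, mem_compl_iff] at h5 h6 h7
  omega

/-- Isomorphic ultrafilters: maps in both directions which are inverse to each other almost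
everywhere. -/
lemma Iso.maps {u v : Ultrafilter ℕ} (h : Iso u v) : ∃ f g : ℕ → ℕ, u.map f = v ∧ v.map g = u ∧
    {n | g (f n) = n} ∈ u ∧ {n | f (g n) = n} ∈ v := by
  obtain ⟨⟨g, hg⟩, ⟨f, hf⟩⟩ := h
  refine ⟨f, g, hf, hg, ?_, ?_⟩
  · apply map_fix u (fun n => g (f n))
    have : (u.map f).map g = u.map (g ∘ f) := Ultrafilter.map_map _ _ _
    rw [hf, hg] at this
    exact this.symm
  · apply map_fix v (fun n => f (g n))
    have : (v.map g).map f = v.map (f ∘ g) := Ultrafilter.map_map _ _ _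
    rw [hg, hf] at this
    exact this.symm

lemma Iso.symm {u v : Ultrafilter ℕ} (h : Iso u v) : Iso v u := ⟨h.2, h.1⟩

lemma RK.trans {u v w : Ultrafilter ℕ} (h : RK u v) (h' : RK v w) : RK u w := by
  obtain ⟨f, rfl⟩ := h
  obtain ⟨g, rfl⟩ := h'
  exact ⟨f ∘ g, (Ultrafilter.map_map _ _ _).symm⟩

lemma Iso.trans {u v w : Ultrafilter ℕ} (h : Iso u v) (h' : Iso v w) : Iso u w :=
  ⟨h.1.trans h'.1, h'.2.trans h.2⟩

lemma iso_of_leftInv {u : Ultrafilter ℕ} {f g : ℕ → ℕ} (h : {n | g (f n) = n} ∈ u) :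
    Iso u (u.map f) := by
  refine ⟨⟨g, ?_⟩, ⟨f, rfl⟩⟩
  rw [Ultrafilter.map_map]
  ext S
  rw [Ultrafilter.mem_map]
  constructor
  · intro h1
    filter_upwards [h1, h] with n h2 h3
    simp only [mem_preimage, Function.comp_apply, mem_ofPred_eq] at h2 h3
    rwa [h3] at h2
  · intro h1
    filter_upwards [h1, h] with n h2 h3
    simp only [mem_preimage, Function.comp_apply, mem_ofPred_eq] at h2 h3 ⊢
    rwa [h3]

/-! ### Closures -/

lemma mem_closure_of {u : Ultrafilter ℕ} {S : Set (Ultrafilter ℕ)}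
    (h : ∀ X ∈ u, ∃ v ∈ S, X ∈ v) : u ∈ closure S := by
  rw [ultrafilterBasis_is_basis.mem_closure_iff]
  rintro o ⟨X, rfl⟩ hX
  obtain ⟨v, hv, hXv⟩ := h X hX
  exact ⟨v, hXv, hv⟩

/-- the form in which weak P-points are used -/
lemma WeakPPoint.use {u : Ultrafilter ℕ} (hu : WeakPPoint u) (v : ℕ → Ultrafilter ℕ) (I : Set ℕ)
    (hv : ∀ i ∈ I, Nonprincipal (v i)) (h : ∀ X ∈ u, ∃ i ∈ I, X ∈ v i) : ∃ i ∈ I, u = v i := by
  by_contra hcon
  push Not at hcon
  apply hu.2 (v '' I) ((Set.to_countable I).image v)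
  · rintro _ ⟨i, hi, rfl⟩
    exact ⟨hv i hi, fun h => hcon i hi h.symm⟩
  · apply mem_closure_of
    intro X hX
    obtain ⟨i, hi, hXi⟩ := h X hX
    exact ⟨v i, ⟨i, hi, rfl⟩, hXi⟩

lemma mem_bind' {u : Ultrafilter ℕ} {x : ℕ → Ultrafilter ℕ} {S : Set ℕ} :
    S ∈ u.bind x ↔ {i | S ∈ x i} ∈ u := Iff.rfl

/-- A point `j` with `{q = j} ∈ y` is determined by the values of `q` on members of `y`. -/
lemma fib_mem {y : Ultrafilter ℕ} {q : ℕ → ℕ} {j : ℕ} (h : {n | q n = j} ∈ y) (D : Set ℕ) :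
    q ⁻¹' D ∈ y ↔ j ∈ D := by
  constructor
  · intro h1
    obtain ⟨n, h2, h3⟩ := Ultrafilter.nonempty_of_mem (inter_mem h h1)
    simp only [mem_ofPred_eq, mem_preimage] at h2 h3
    rwa [h2] at h3
  · intro h1
    filter_upwards [h] with n hn
    rw [mem_preimage]
    rwa [← hn] at h1

/-- The one-sided half of the main lemma. -/
lemma half {w a b : Ultrafilter ℕ} {x y : ℕ → Ultrafilter ℕ} {p q : ℕ → ℕ} {I J : Set ℕ}
    (ha : Nonprincipal a) (hb : WeakPPoint b) (hwx : a.bind x = w) (hwy : b.bind y = w)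
    (hI : I ∈ a) (hx : ∀ i ∈ I, {n | p n = i} ∈ x i) (hy : ∀ j ∈ J, {n | q n = j} ∈ y j)
    (hJ : J ∈ b) (hcl : ∀ i ∈ I, ∀ S ∈ x i, ∃ j ∈ J, S ∈ y j) :
    Iso a b ∧ ∃ i ∈ I, ∃ j ∈ J, x i = y j := by
  -- `q(w) = b`
  have hq : ∀ D : Set ℕ, q ⁻¹' D ∈ w ↔ D ∈ b := by
    intro D
    rw [← hwy, mem_bind']
    constructor
    · intro h
      filter_upwards [h, hJ] with j h1 h2
      exact (fib_mem (hy j h2) D).1 h1
    · intro h
      filter_upwards [h, hJ] with j h1 h2
      exact (fib_mem (hy j h2) D).2 h1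
  have hp : ∀ D : Set ℕ, p ⁻¹' D ∈ w ↔ D ∈ a := by
    intro D
    rw [← hwx, mem_bind']
    constructor
    · intro h
      filter_upwards [h, hI] with j h1 h2
      exact (fib_mem (hx j h2) D).1 h1
    · intro h
      filter_upwards [h, hI] with j h1 h2
      exact (fib_mem (hx j h2) D).2 h1
  have hdir : ∀ i ∈ I, ∀ S ∈ x i, {j | S ∈ y j} ∈ (x i).map q := by
    intro i hi S hS
    by_contra hcon
    have hD := Ultrafilter.compl_mem_iff_notMem.2 hcon
    rw [Ultrafilter.mem_map] at hD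
    obtain ⟨j, hj, hSj⟩ := hcl i hi _ (inter_mem hS hD)
    have h1 : S ∈ y j := mem_of_superset hSj inter_subset_left
    have h2 := (fib_mem (hy j hj) _).1 (mem_of_superset hSj inter_subset_right)
    exact h2 h1
  have hiff : ∀ i ∈ I, ∀ S, S ∈ x i ↔ {j | S ∈ y j} ∈ (x i).map q := by
    intro i hi S
    refine ⟨hdir i hi S, fun h => ?_⟩
    by_contra hcon
    have h1 := hdir i hi _ (Ultrafilter.compl_mem_iff_notMem.2 hcon)
    obtain ⟨j, h2, h3⟩ := Ultrafilter.nonempty_of_mem (inter_mem h h1)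
    simp only [mem_ofPred_eq] at h2 h3
    exact (Ultrafilter.compl_mem_iff_notMem.1 h3) h2
  have hJv : ∀ i ∈ I, J ∈ (x i).map q := by
    intro i hi
    by_contra hcon
    have hD := Ultrafilter.compl_mem_iff_notMem.2 hcon
    rw [Ultrafilter.mem_map] at hD
    obtain ⟨j, hj, hSj⟩ := hcl i hi _ hD
    exact (fib_mem (hy j hj) _).1 hSj hj
  have hlim : ∀ D : Set ℕ, D ∈ b ↔ {i | D ∈ (x i).map q} ∈ a := by
    intro D
    rw [← hq D, ← hwx, mem_bind']
    rfl
  by_cases hcase : {i | i ∈ I ∧ Nonprincipal ((x i).map q)} ∈ a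
  · exfalso
    obtain ⟨i, hi, hbi⟩ := hb.use (fun i => (x i).map q) {i | i ∈ I ∧ Nonprincipal ((x i).map q)}
      (fun i hi => hi.2) (by
        intro X hX
        obtain ⟨i, h1, h2⟩ := Ultrafilter.nonempty_of_mem (inter_mem hcase ((hlim X).1 hX))
        exact ⟨i, h1, h2⟩)
    have hxw : x i = w := by
      ext S
      rw [hiff i hi.1 S, ← hbi, ← hwy, mem_bind']
    have h1 := hx i hi.1
    rw [hxw] at h1
    exact ha i ((hp {i}).1 h1)
  · have hcase' : {i | i ∈ I ∧ ∃ j, ({j} : Set ℕ) ∈ (x i).map q} ∈ a := by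
      filter_upwards [Ultrafilter.compl_mem_iff_notMem.2 hcase, hI] with i h1 h2
      refine ⟨h2, ?_⟩
      by_contra hcon
      push Not at hcon
      exact h1 ⟨h2, hcon⟩
    classical
    let k : ℕ → ℕ := fun i => if h : ∃ j, ({j} : Set ℕ) ∈ (x i).map q then h.choose else 0
    have hk : ∀ i, (∃ j, ({j} : Set ℕ) ∈ (x i).map q) → ({k i} : Set ℕ) ∈ (x i).map q := by
      intro i h
      simp only [k, dif_pos h]
      exact h.choose_spec
    have hkmem : ∀ i, (∃ j, ({j} : Set ℕ) ∈ (x i).map q) → ∀ D, D ∈ (x i).map q ↔ k i ∈ D := by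
      intro i h D
      constructor
      · intro h1
        obtain ⟨j, h2, h3⟩ := Ultrafilter.nonempty_of_mem (inter_mem (hk i h) h1)
        rw [mem_singleton_iff] at h2
        rwa [h2] at h3
      · intro h1
        exact mem_of_superset (hk i h) (by simpa using h1)
    have hxy : ∀ i, i ∈ I → (∃ j, ({j} : Set ℕ) ∈ (x i).map q) → x i = y (k i) := by
      intro i hi h
      ext S
      rw [hiff i hi S, hkmem i h]
      rfl
    have hkb : a.map k = b := by
      ext D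
      rw [Ultrafilter.mem_map, hlim D]
      constructor
      · intro h
        filter_upwards [h, hcase'] with i h1 h2
        exact (hkmem i h2.2 D).2 h1
      · intro h
        filter_upwards [h, hcase'] with i h1 h2
        exact (hkmem i h2.2 D).1 h1
    have hinj : Set.InjOn k {i | i ∈ I ∧ ∃ j, ({j} : Set ℕ) ∈ (x i).map q} := by
      rintro i ⟨hi, hi2⟩ i' ⟨hi', hi2'⟩ heq
      have h1 : x i = x i' := by rw [hxy i hi hi2, hxy i' hi' hi2', heq]
      have h2 := hx i hi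
      rw [h1] at h2
      have h3 := (fib_mem (hx i' hi') {i}).1 h2
      exact h3.symm
    have hleft : {i | Function.invFunOn k {i | i ∈ I ∧ ∃ j, ({j} : Set ℕ) ∈ (x i).map q} (k i) = i}
        ∈ a := by
      filter_upwards [hcase'] with i hi
      exact hinj.leftInvOn_invFunOn hi
    refine ⟨?_, ?_⟩
    · have := iso_of_leftInv hleft
      rwa [hkb] at this
    · obtain ⟨i, hi, hi2⟩ := Ultrafilter.nonempty_of_mem hcase'
      exact ⟨i, hi, k i, (hkmem i hi2 J).1 (hJv i hi), hxy i hi hi2⟩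

/-- The main lemma on two decompositions of one ultrafilter. -/
lemma main {w a b : Ultrafilter ℕ} {x y : ℕ → Ultrafilter ℕ} {p q : ℕ → ℕ} {I J : Set ℕ}
    (ha : WeakPPoint a) (hb : WeakPPoint b) (hwx : a.bind x = w) (hwy : b.bind y = w)
    (hI : I ∈ a) (hx : ∀ i ∈ I, {n | p n = i} ∈ x i) (hJ : J ∈ b)
    (hy : ∀ j ∈ J, {n | q n = j} ∈ y j) :
    Iso a b ∧ ∃ i ∈ I, ∃ j ∈ J, x i = y j := by
  by_cases h1 : {i | i ∈ I ∧ ∀ S ∈ x i, ∃ j ∈ J, S ∈ y j} ∈ a
  · obtain ⟨h2, i, hi, j, hj, hij⟩ := half (p := p) (q := q) ha.1 hb hwx hwy h1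
      (fun i hi => hx i hi.1) hy hJ (fun i hi => hi.2)
    exact ⟨h2, i, hi.1, j, hj, hij⟩
  by_cases h2 : {j | j ∈ J ∧ ∀ S ∈ y j, ∃ i ∈ I, S ∈ x i} ∈ b
  · obtain ⟨h2, j, hj, i, hi, hij⟩ := half (p := q) (q := p) hb.1 ha hwy hwx h2
      (fun i hi => hy i hi.1) hx hI (fun i hi => hi.2)
    exact ⟨h2.symm, i, hi, j, hj.1, hij.symm⟩
  exfalso
  have h1' : {i | i ∈ I ∧ ∃ S ∈ x i, ∀ j ∈ J, S ∉ y j} ∈ a := by
    filter_upwards [Ultrafilter.compl_mem_iff_notMem.2 h1, hI] with i h3 h4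
    refine ⟨h4, ?_⟩
    by_contra hcon
    push Not at hcon
    exact h3 ⟨h4, hcon⟩
  have h2' : {j | j ∈ J ∧ ∃ S ∈ y j, ∀ i ∈ I, S ∉ x i} ∈ b := by
    filter_upwards [Ultrafilter.compl_mem_iff_notMem.2 h2, hJ] with i h3 h4
    refine ⟨h4, ?_⟩
    by_contra hcon
    push Not at hcon
    exact h3 ⟨h4, hcon⟩
  set I' := {i | i ∈ I ∧ ∃ S ∈ x i, ∀ j ∈ J, S ∉ y j} with hI'
  set J' := {j | j ∈ J ∧ ∃ S ∈ y j, ∀ i ∈ I, S ∉ x i} with hJ'
  have hS : ∃ S : ℕ → Set ℕ, ∀ i ∈ I', S i ∈ x i ∧ ∀ j ∈ J, S i ∉ y j := by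
    have : ∀ i, ∃ S : Set ℕ, i ∈ I' → S ∈ x i ∧ ∀ j ∈ J, S ∉ y j := by
      intro i
      by_cases hi : i ∈ I'
      · obtain ⟨S, hS⟩ := hi.2
        exact ⟨S, fun _ => hS⟩
      · exact ⟨∅, fun h => absurd h hi⟩
    choose S hS using this
    exact ⟨S, hS⟩
  have hT : ∃ T : ℕ → Set ℕ, ∀ j ∈ J', T j ∈ y j ∧ ∀ i ∈ I, T j ∉ x i := by
    have : ∀ j, ∃ S : Set ℕ, j ∈ J' → S ∈ y j ∧ ∀ i ∈ I, S ∉ x i := by
      intro i
      by_cases hi : i ∈ J'
      · obtain ⟨S, hS⟩ := hi.2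
        exact ⟨S, fun _ => hS⟩
      · exact ⟨∅, fun h => absurd h hi⟩
    choose S hS using this
    exact ⟨S, hS⟩
  obtain ⟨S, hS⟩ := hS
  obtain ⟨T, hT⟩ := hT
  let P : Set ℕ := {n | ∃ i ∈ I', n ∈ S i ∧ ∀ j, j ≤ i → j ∈ J' → n ∉ T j}
  let Q : Set ℕ := {n | ∃ j ∈ J', n ∈ T j ∧ ∀ i, i ≤ j → i ∈ I' → n ∉ S i}
  have hfin : ∀ (u : Ultrafilter ℕ) (N : ℕ) (K : Set ℕ) (R : ℕ → Set ℕ),
      (∀ j ∈ K, R j ∉ u) → {n | ∀ j, j ≤ N → j ∈ K → n ∉ R j} ∈ u := by
    intro u N K R h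
    have : {n | ∀ j, j ≤ N → j ∈ K → n ∉ R j} = ⋂ j ∈ {j | j ≤ N ∧ j ∈ K}, (R j)ᶜ := by
      ext n
      simp only [mem_ofPred_eq, mem_iInter, mem_compl_iff, and_imp]
    rw [this]
    have hf : ({j | j ≤ N ∧ j ∈ K} : Set ℕ).Finite := (Set.finite_le_nat N).subset (fun j hj => hj.1)
    exact (Filter.biInter_mem hf).2 (fun j hj => Ultrafilter.compl_mem_iff_notMem.2 (h j hj.2))
  have hP : P ∈ w := by
    rw [← hwx, mem_bind']
    filter_upwards [h1'] with i hi
    filter_upwards [(hS i hi).1, hfin (x i) i J' T (fun j hj => (hT j hj).2 i hi.1)] with n h3 h4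
    exact ⟨i, hi, h3, h4⟩
  have hQ : Q ∈ w := by
    rw [← hwy, mem_bind']
    filter_upwards [h2'] with j hj
    filter_upwards [(hT j hj).1, hfin (y j) j I' S (fun i hi => (hS i hi).2 j hj.1)] with n h3 h4
    exact ⟨j, hj, h3, h4⟩
  obtain ⟨n, ⟨i, hi, h3, h4⟩, ⟨j, hj, h5, h6⟩⟩ := Ultrafilter.nonempty_of_mem (inter_mem hP hQ)
  rcases le_total i j with h | h
  · exact h6 i h hi h3
  · exact h4 j h hj h5

/-! ### Tensor products -/

/-- the fibre `{i} × ℕ` of the tensor product -/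
def fib (e : ℕ × ℕ ≃ ℕ) (r : Ultrafilter ℕ) (i : ℕ) : Ultrafilter ℕ := r.map (fun j => e (i, j))

lemma tensor_eq (e : ℕ × ℕ ≃ ℕ) (a r : Ultrafilter ℕ) : tensor e a r = a.bind (fib e r) := by
  ext S
  rfl

lemma fib_fst (e : ℕ × ℕ ≃ ℕ) (r : Ultrafilter ℕ) (i : ℕ) :
    {n | (e.symm n).1 = i} ∈ fib e r i := by
  have : (fun j => e (i, j)) ⁻¹' {n | (e.symm n).1 = i} = univ := by
    ext j
    simp
  rw [fib, Ultrafilter.mem_map, this]
  exact univ_mem

lemma iso_fib (e : ℕ × ℕ ≃ ℕ) (r : Ultrafilter ℕ) (i : ℕ) : Iso r (fib e r i) := by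
  apply iso_of_leftInv (g := fun n => (e.symm n).2)
  have : {n | (fun n => (e.symm n).2) (e (i, n)) = n} = univ := by
    ext j
    simp
  rw [this]
  exact univ_mem

lemma Iso.nonprincipal {u v : Ultrafilter ℕ} (h : Iso u v) (hu : Nonprincipal u) :
    Nonprincipal v := by
  obtain ⟨f, g, hf, hg, hgf, hfg⟩ := h.maps
  intro n hn
  apply hu (g n)
  rw [← hg, Ultrafilter.mem_map]
  refine mem_of_superset hn ?_
  rintro m rfl
  exact rfl

lemma tensor_nonprincipal (e : ℕ × ℕ ≃ ℕ) {a r : Ultrafilter ℕ} (hr : Nonprincipal r) :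
    Nonprincipal (tensor e a r) := by
  intro n hn
  rw [tensor_eq, mem_bind'] at hn
  obtain ⟨i, hi⟩ := Ultrafilter.nonempty_of_mem hn
  exact (iso_fib e r i).nonprincipal hr n hi

/-- Transport of the decomposition of `b ⊗ r'` along an isomorphism. -/
lemma transport (e : ℕ × ℕ ≃ ℕ) {w b r : Ultrafilter ℕ} (h : Iso w (tensor e b r)) :
    ∃ (y : ℕ → Ultrafilter ℕ) (q : ℕ → ℕ) (J : Set ℕ), J ∈ b ∧ b.bind y = w ∧
      (∀ j ∈ J, {n | q n = j} ∈ y j) ∧ (∀ j ∈ J, Iso r (y j)) ∧ w.map q = b := by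
  obtain ⟨f, g, hf, hg, hgf, hfg⟩ := h.maps
  rw [tensor_eq, mem_bind'] at hfg
  have hby : b.bind (fun j => (fib e r j).map g) = w := by
    rw [← hg, tensor_eq]
    ext S
    rfl
  have hfib : ∀ j ∈ {i | {n | f (g n) = n} ∈ fib e r i},
      {n | (e.symm (f n)).1 = j} ∈ (fib e r j).map g := by
    intro j hj
    rw [Ultrafilter.mem_map]
    filter_upwards [hj, fib_fst e r j] with m h1 h2
    simp only [mem_ofPred_eq, mem_preimage] at h1 h2 ⊢
    rw [h1, h2]
  refine ⟨fun j => (fib e r j).map g, fun n => (e.symm (f n)).1, _, hfg, hby, hfib, ?_, ?_⟩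
  · intro j hj
    exact (iso_fib e r j).trans (iso_of_leftInv hj)
  · ext D
    rw [Ultrafilter.mem_map, ← hby, mem_bind']
    constructor
    · intro h
      filter_upwards [h, hfg] with j h1 h2
      exact (fib_mem (hfib j h2) D).1 h1
    · intro h
      filter_upwards [h, hfg] with j h1 h2
      exact (fib_mem (hfib j h2) D).2 h1

/-- A weak P-point is not isomorphic to a product of nonprincipal ultrafilters. -/
lemma base (e : ℕ × ℕ ≃ ℕ) {a b r : Ultrafilter ℕ} (ha : WeakPPoint a) (hb : Nonprincipal b)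
    (hr : Nonprincipal r) : ¬ Iso a (tensor e b r) := by
  intro h
  obtain ⟨y, q, J, hJ, hby, hfib, hiso, hq⟩ := transport e h
  obtain ⟨j, hj, haj⟩ := ha.use y J (fun j hj => (hiso j hj).nonprincipal hr) (by
    intro X hX
    rw [← hby, mem_bind'] at hX
    obtain ⟨j, h1, h2⟩ := Ultrafilter.nonempty_of_mem (inter_mem hJ hX)
    exact ⟨j, h1, h2⟩)
  apply hb j
  rw [← hq, Ultrafilter.mem_map, haj]
  exact hfib j hj

/-- Cancellation. -/
lemma cancel (e : ℕ × ℕ ≃ ℕ) {a b r r' : Ultrafilter ℕ} (ha : WeakPPoint a) (hb : WeakPPoint b)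
    (h : Iso (tensor e a r) (tensor e b r')) : Iso a b ∧ Iso r r' := by
  obtain ⟨y, q, J, hJ, hby, hfib, hiso, hq⟩ := transport e h
  obtain ⟨h1, i, hi, j, hj, hij⟩ := main (p := fun n => (e.symm n).1) (q := q) (I := univ) ha hb
    (tensor_eq e a r).symm hby univ_mem (fun i _ => fib_fst e r i) hJ hfib
  refine ⟨h1, ?_⟩
  have h2 := iso_fib e r i
  rw [hij] at h2
  exact h2.trans (hiso j hj).symm

lemma word_nonprincipal (e : ℕ × ℕ ≃ ℕ) : ∀ (l : List (Ultrafilter ℕ)) (a : Ultrafilter ℕ),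
    Nonprincipal a → (∀ c ∈ l, Nonprincipal c) → Nonprincipal (word e a l) := by
  intro l
  induction l with
  | nil => intro a ha _; exact ha
  | cons b l ih =>
    intro a ha hl
    exact tensor_nonprincipal e (ih b (hl b (by simp)) (fun c hc => hl c (by simp [hc])))

lemma generatesFree (e : ℕ × ℕ ≃ ℕ) (A : Set (Ultrafilter ℕ)) (hA : ∀ a ∈ A, WeakPPoint a)
    (hne : ∀ a ∈ A, ∀ b ∈ A, Iso a b → a = b) : GeneratesFree e A := by
  intro a ha b hb l
  induction l generalizing a b with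
  | nil =>
    intro l' _ hl' h
    cases l' with
    | nil => exact ⟨hne a ha b hb h, rfl⟩
    | cons c l' =>
      exfalso
      exact base e (hA a ha) (hA b hb).1 (word_nonprincipal e l' c (hA c (hl' c (by simp))).1
        (fun d hd => (hA d (hl' d (by simp [hd]))).1)) h
  | cons c l ih =>
    intro l' hl hl' h
    cases l' with
    | nil =>
      exfalso
      exact base e (hA b hb) (hA a ha).1 (word_nonprincipal e l c (hA c (hl c (by simp))).1
        (fun d hd => (hA d (hl d (by simp [hd]))).1)) h.symm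
    | cons d l' =>
      obtain ⟨h1, h2⟩ := cancel e (hA a ha) (hA b hb) h
      obtain ⟨h3, h4⟩ := ih c (hl c (by simp)) d (hl' d (by simp)) l'
        (fun x hx => hl x (by simp [hx])) (fun x hx => hl' x (by simp [hx])) h2
      exact ⟨hne a ha b hb h1, by rw [h3, h4]⟩

/-- Q1 has a positive answer: every set of pairwise Rudin-Keisler incomparable weak P-points
generates a free semigroup up to isomorphism under the tensor product (whatever bijection
`ℕ × ℕ → ℕ` is used). Pairwise incomparable can be weakened to pairwise non-isomorphic. -/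
theorem result : ∀ e : ℕ × ℕ ≃ ℕ, ∀ A : Set (Ultrafilter ℕ), (∀ a ∈ A, WeakPPoint a) →
    ((∀ a ∈ A, ∀ b ∈ A, a ≠ b → ¬ RK a b) → GeneratesFree e A) ∧
    ((∀ a ∈ A, ∀ b ∈ A, a ≠ b → ¬ Iso a b) → GeneratesFree e A) := by
  intro e A hA
  have h2 : (∀ a ∈ A, ∀ b ∈ A, a ≠ b → ¬ Iso a b) → GeneratesFree e A := fun h =>
    generatesFree e A hA (fun a ha b hb hab => by
      by_contra hne
      exact h a ha b hb hne hab)
  exact ⟨fun h => h2 (fun a ha b hb hab hiso => h a ha b hb hab hiso.1), h2⟩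

end Pool.Agent.Results.MP_55c7a7_lc.WeakPPointsFree
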